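import Mathlib
import Pool.Agent.MP_c1891a_nt.H91.Spec

/-
Row Two: two very small values come from symmetric points.
-/

namespace Pool.Agent.MP_c1891a_nt.H91

open Finset Polynomial

lemma two_aeval (k c : ℤ) (a b : ℕ) (z : ℂ) :
    aeval z (FP k c a b) =
      (k : ℂ) * z ^ a + (c : ℂ) * (z ^ (2 * a) + 1 + z ^ (a + b) + z ^ (a - b)) := by
  simp [FP]

lemma two_aeval_PV (k c : ℤ) {a b : ℕ} (hb : b ≤ a) {z : ℂ} (hz : z ≠ 0) :
    aeval z (FP k c a b) = z ^ a * PV k c (z ^ a) (z ^ b) := by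
  obtain ⟨d, rfl⟩ := Nat.exists_eq_add_of_le hb
  rw [two_aeval, PV, Nat.add_sub_cancel_left]
  have h1 : z ^ b ≠ 0 := pow_ne_zero _ hz
  have h2 : z ^ d ≠ 0 := pow_ne_zero _ hz
  simp only [pow_add, two_mul]
  field_simp

lemma two_norm_PV (k c : ℤ) {a b : ℕ} (hb : b ≤ a) {z : ℂ} (hz : ‖z‖ = 1) :
    ‖aeval z (FP k c a b)‖ = ‖PV k c (z ^ a) (z ^ b)‖ := by
  have hz0 : z ≠ 0 := by
    rintro rfl
    simp at hz
  rw [two_aeval_PV k c hb hz0, norm_mul, norm_pow, hz, one_pow, one_mul]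

lemma two_natDegree (k c : ℤ) {a b : ℕ} (hb : b ≤ a) : (FP k c a b).natDegree ≤ 2 * a := by
  unfold FP
  refine (natDegree_add_le _ _).trans (max_le ?_ ?_)
  · exact (natDegree_C_mul_le _ _).trans (by rw [natDegree_X_pow]; omega)
  · refine (natDegree_C_mul_le _ _).trans ?_
    refine (natDegree_add_le _ _).trans (max_le ?_ (by rw [natDegree_X_pow]; omega))
    refine (natDegree_add_le _ _).trans (max_le ?_ (by rw [natDegree_X_pow]; omega))
    refine (natDegree_add_le _ _).trans (max_le ?_ (by simp))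
    rw [natDegree_X_pow]

lemma two_c_pos {k c : ℤ} (h : Adm k c) : 1 ≤ c := by
  have h1 := h.2.1
  have h2 := abs_nonneg k
  omega

lemma two_aeval_zero {k c : ℤ} (h : Adm k c) {a b : ℕ} (hb : b < a) :
    aeval (0 : ℂ) (FP k c a b) ≠ 0 := by
  have hc := two_c_pos h
  rw [two_aeval, zero_pow (by omega), zero_pow (by omega), zero_pow (by omega),
    zero_pow (by omega)]
  have : (c : ℂ) ≠ 0 := by exact_mod_cast (by omega : c ≠ 0)
  simpa using this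

lemma two_aeval_one {k c : ℤ} (h : Adm k c) (a b : ℕ) :
    aeval (1 : ℂ) (FP k c a b) ≠ 0 := by
  rw [two_aeval]
  simp only [one_pow]
  have h1 := h.2.1
  have h2 : k + 4 * c ≠ 0 := by
    have := neg_abs_le k
    omega
  have h3 : ((k + 4 * c : ℤ) : ℂ) ≠ 0 := by exact_mod_cast h2
  push_cast at h3
  intro h4
  apply h3
  linear_combination h4

lemma two_ne_zero {k c : ℤ} (h : Adm k c) (a b : ℕ) : FP k c a b ≠ 0 := by
  intro h0
  apply two_aeval_one h a b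
  rw [h0, map_zero]

lemma two_k_le {k c : ℤ} (h : Adm k c) : ‖(k : ℂ)‖ ≤ 4 * (c : ℝ) := by
  rw [Complex.norm_intCast]
  exact_mod_cast h.2.1.le

lemma two_norm_c {k c : ℤ} (h : Adm k c) : ‖(c : ℂ)‖ = (c : ℝ) := by
  rw [Complex.norm_intCast]
  have := two_c_pos h
  exact abs_of_nonneg (by exact_mod_cast (by omega : 0 ≤ c))

lemma two_norm_le {k c : ℤ} (h : Adm k c) {a b : ℕ} (hb : b ≤ a) (z : ℂ) :
    ‖aeval z (FP k c a b)‖ ≤ 8 * (c : ℝ) * max 1 ‖z‖ ^ (2 * a) := by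
  have hp : ∀ m : ℕ, m ≤ 2 * a → ‖z ^ m‖ ≤ max 1 ‖z‖ ^ (2 * a) := by
    intro m hm
    rw [norm_pow]
    exact (pow_le_pow_left₀ (norm_nonneg _) (le_max_right _ _) m).trans
      (pow_le_pow_right₀ (le_max_left _ _) hm)
  have hc : (1 : ℝ) ≤ c := by exact_mod_cast two_c_pos h
  have h0 := hp 0 (by omega)
  rw [pow_zero] at h0
  have h1 := hp a (by omega)
  have h2 := hp (2 * a) le_rfl
  have h3 := hp (a + b) (by omega)
  have h4 := hp (a - b) (by omega)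
  rw [two_aeval]
  have e1 : ‖(k : ℂ) * z ^ a‖ ≤ 4 * (c : ℝ) * max 1 ‖z‖ ^ (2 * a) := by
    rw [norm_mul]
    exact mul_le_mul (two_k_le h) h1 (norm_nonneg _) (by linarith)
  have e2 : ‖z ^ (2 * a) + 1 + z ^ (a + b) + z ^ (a - b)‖ ≤ 4 * max 1 ‖z‖ ^ (2 * a) := by
    have := norm_add_le (z ^ (2 * a) + 1 + z ^ (a + b)) (z ^ (a - b))
    have := norm_add_le (z ^ (2 * a) + 1) (z ^ (a + b))
    have := norm_add_le (z ^ (2 * a)) 1
    linarith
  have e3 : ‖(c : ℂ) * (z ^ (2 * a) + 1 + z ^ (a + b) + z ^ (a - b))‖ ≤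
      (c : ℝ) * (4 * max 1 ‖z‖ ^ (2 * a)) := by
    rw [norm_mul, two_norm_c h]
    exact mul_le_mul_of_nonneg_left e2 (by linarith)
  have := norm_add_le ((k : ℂ) * z ^ a) ((c : ℂ) * (z ^ (2 * a) + 1 + z ^ (a + b) + z ^ (a - b)))
  linarith

lemma two_pow_diff {x y : ℂ} {R : ℝ} (hR : 1 ≤ R) (hx : ‖x‖ ≤ R) (hy : ‖y‖ ≤ R) (m : ℕ) :
    ‖x ^ m - y ^ m‖ ≤ m * R ^ m * ‖x - y‖ := by
  induction m with
  | zero => simp
  | succ m ih =>
    have e : x ^ (m + 1) - y ^ (m + 1) = x * (x ^ m - y ^ m) + (x - y) * y ^ m := by ring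
    have h1 : ‖x * (x ^ m - y ^ m)‖ ≤ R * (m * R ^ m * ‖x - y‖) := by
      rw [norm_mul]
      exact mul_le_mul hx ih (norm_nonneg _) (by linarith)
    have h2 : ‖(x - y) * y ^ m‖ ≤ ‖x - y‖ * R ^ (m + 1) := by
      rw [norm_mul, norm_pow]
      refine mul_le_mul_of_nonneg_left ?_ (norm_nonneg _)
      exact (pow_le_pow_left₀ (norm_nonneg _) hy m).trans (pow_le_pow_right₀ hR (by omega))
    rw [e]
    refine (norm_add_le _ _).trans ((add_le_add h1 h2).trans (le_of_eq ?_))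
    push_cast
    ring

lemma two_diff_le {k c : ℤ} (h : Adm k c) {a b : ℕ} (hb : b ≤ a) {x y : ℂ} (hx : ‖x‖ ≤ 2)
    (hy : ‖y‖ ≤ 2) :
    ‖aeval x (FP k c a b) - aeval y (FP k c a b)‖ ≤ 7 * (c : ℝ) * (16 ^ a * ‖x - y‖) := by
  have hp : ∀ m : ℕ, m ≤ 2 * a → ‖x ^ m - y ^ m‖ ≤ 16 ^ a * ‖x - y‖ := by
    intro m hm
    refine (two_pow_diff (by norm_num) hx hy m).trans ?_
    refine mul_le_mul_of_nonneg_right ?_ (norm_nonneg _)
    have h1 : (m : ℝ) ≤ 2 ^ m := by exact_mod_cast (Nat.lt_two_pow_self).le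
    calc (m : ℝ) * 2 ^ m ≤ 2 ^ m * 2 ^ m := by gcongr
      _ = 4 ^ m := by rw [← mul_pow]; norm_num
      _ ≤ 4 ^ (2 * a) := pow_le_pow_right₀ (by norm_num) hm
      _ = 16 ^ a := by rw [pow_mul]; norm_num
  have hc : (1 : ℝ) ≤ c := by exact_mod_cast two_c_pos h
  have h1 := hp a (by omega)
  have h2 := hp (2 * a) le_rfl
  have h3 := hp (a + b) (by omega)
  have h4 := hp (a - b) (by omega)
  have e : aeval x (FP k c a b) - aeval y (FP k c a b) = (k : ℂ) * (x ^ a - y ^ a) +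
      (c : ℂ) * ((x ^ (2 * a) - y ^ (2 * a)) + (x ^ (a + b) - y ^ (a + b)) +
        (x ^ (a - b) - y ^ (a - b))) := by
    rw [two_aeval, two_aeval]
    ring
  rw [e]
  have e1 : ‖(k : ℂ) * (x ^ a - y ^ a)‖ ≤ 4 * (c : ℝ) * (16 ^ a * ‖x - y‖) := by
    rw [norm_mul]
    exact mul_le_mul (two_k_le h) h1 (norm_nonneg _) (by linarith)
  have e2 : ‖(x ^ (2 * a) - y ^ (2 * a)) + (x ^ (a + b) - y ^ (a + b)) +
      (x ^ (a - b) - y ^ (a - b))‖ ≤ 3 * (16 ^ a * ‖x - y‖) := by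
    have := norm_add_le ((x ^ (2 * a) - y ^ (2 * a)) + (x ^ (a + b) - y ^ (a + b)))
      (x ^ (a - b) - y ^ (a - b))
    have := norm_add_le (x ^ (2 * a) - y ^ (2 * a)) (x ^ (a + b) - y ^ (a + b))
    linarith
  have e3 : ‖(c : ℂ) * ((x ^ (2 * a) - y ^ (2 * a)) + (x ^ (a + b) - y ^ (a + b)) +
      (x ^ (a - b) - y ^ (a - b)))‖ ≤ (c : ℝ) * (3 * (16 ^ a * ‖x - y‖)) := by
    rw [norm_mul, two_norm_c h]
    exact mul_le_mul_of_nonneg_left e2 (by linarith)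
  refine (norm_add_le _ _).trans ?_
  linarith

lemma two_mahler {k c : ℤ} (h : Adm k c) {a b : ℕ} (hb : b ≤ a) :
    ((FP k c a b).map (Int.castRingHom ℂ)).mahlerMeasure ≤ 8 * (c : ℝ) := by
  refine (mahlerMeasure_le_sum_norm_coeff _).trans ?_
  have hd : ((FP k c a b).map (Int.castRingHom ℂ)).natDegree < 2 * a + 1 :=
    Nat.lt_succ_of_le (natDegree_map_le.trans (two_natDegree k c hb))
  rw [Polynomial.sum_over_range' _ (by simp) (2 * a + 1) hd]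
  have hc : (1 : ℝ) ≤ c := by exact_mod_cast two_c_pos h
  have hs : ∀ m : ℕ, ∑ i ∈ range (2 * a + 1), ‖(X ^ m : ℂ[X]).coeff i‖ ≤ 1 := by
    intro m
    have : ∀ i, ‖(X ^ m : ℂ[X]).coeff i‖ = if i = m then 1 else 0 := by
      intro i
      rw [coeff_X_pow]
      split_ifs <;> simp
    simp only [this, sum_ite_eq']
    split_ifs <;> norm_num
  have hco : ∀ i, ‖((FP k c a b).map (Int.castRingHom ℂ)).coeff i‖ ≤
      4 * (c : ℝ) * ‖(X ^ a : ℂ[X]).coeff i‖ + c * (‖(X ^ (2 * a) : ℂ[X]).coeff i‖ +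
        ‖(X ^ 0 : ℂ[X]).coeff i‖ + ‖(X ^ (a + b) : ℂ[X]).coeff i‖ +
        ‖(X ^ (a - b) : ℂ[X]).coeff i‖) := by
    intro i
    have e : ((FP k c a b).map (Int.castRingHom ℂ)).coeff i = (k : ℂ) * (X ^ a : ℂ[X]).coeff i +
        (c : ℂ) * ((X ^ (2 * a) : ℂ[X]).coeff i + (X ^ 0 : ℂ[X]).coeff i +
          (X ^ (a + b) : ℂ[X]).coeff i + (X ^ (a - b) : ℂ[X]).coeff i) := by
      have : (FP k c a b).map (Int.castRingHom ℂ) = C (k : ℂ) * X ^ a +
          C (c : ℂ) * (X ^ (2 * a) + X ^ 0 + X ^ (a + b) + X ^ (a - b)) := by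
        simp [FP]
      rw [this]
      simp only [coeff_add, coeff_C_mul]
    rw [e]
    refine (norm_add_le _ _).trans (add_le_add ?_ ?_)
    · rw [norm_mul]
      exact mul_le_mul_of_nonneg_right (two_k_le h) (norm_nonneg _)
    · rw [norm_mul, two_norm_c h]
      refine mul_le_mul_of_nonneg_left ?_ (by linarith)
      refine (norm_add_le _ _).trans (add_le_add ?_ le_rfl)
      refine (norm_add_le _ _).trans (add_le_add ?_ le_rfl)
      exact norm_add_le _ _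
  refine (sum_le_sum fun i _ => hco i).trans ?_
  simp only [sum_add_distrib, ← mul_sum]
  have h1 := hs a
  have h2 := hs (2 * a)
  have h3 := hs 0
  have h4 := hs (a + b)
  have h5 := hs (a - b)
  nlinarith

lemma two_conj {g G : ℤ[X]} (hg : Irreducible g) {α : ℂ} (hα : aeval α g = 0)
    (hG : aeval α G = 0) : g ∣ G := by
  have hd : g.natDegree ≠ 0 := by
    intro h0
    rw [eq_C_of_natDegree_eq_zero h0] at hα
    have h1 : g.coeff 0 = 0 := by simpa using hα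
    apply hg.ne_zero
    rw [eq_C_of_natDegree_eq_zero h0, h1, map_zero]
  have hp := hg.isPrimitive hd
  have hi := (IsPrimitive.Int.irreducible_iff_irreducible_map_cast hp).1 hg
  rw [IsPrimitive.Int.dvd_iff_map_cast_dvd_map_cast g G hp]
  have e : ∀ P : ℤ[X], aeval α (P.map (Int.castRingHom ℚ)) = aeval α P := fun P =>
    aeval_map_algebraMap ℚ α P
  exact (hi.dvd_iff_aeval_eq_zero (b := α) (by rw [e, hα])).1 (by rw [e, hG])

lemma two_irr {F : ℤ[X]} (hF : F ≠ 0) {α : ℂ} (hα : aeval α F = 0) :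
    ∃ g : ℤ[X], Irreducible g ∧ g ∣ F ∧ aeval α g = 0 := by
  induction F using WfDvdMonoid.induction_on_irreducible with
  | zero => exact absurd rfl hF
  | unit u hu =>
    have := hu.map (aeval α : ℤ[X] →ₐ[ℤ] ℂ)
    exact absurd hα this.ne_zero
  | mul a i ha hi ih =>
    rw [map_mul, mul_eq_zero] at hα
    rcases hα with h1 | h1
    · exact ⟨i, hi, dvd_mul_right _ _, h1⟩
    · obtain ⟨g, h2, h3, h4⟩ := ih ha h1
      exact ⟨g, h2, h3.mul_left _, h4⟩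

lemma two_eval_map (P : ℤ[X]) (z : ℂ) : (P.map (Int.castRingHom ℂ)).eval z = aeval z P := by
  rw [eval_map, aeval_def]
  rfl

lemma two_prod_le {s : Multiset ℂ} {f w : ℂ → ℝ} (h0 : ∀ x ∈ s, 0 ≤ f x)
    (h : ∀ x ∈ s, f x ≤ w x) : (s.map f).prod ≤ (s.map w).prod :=
  Multiset.prod_map_le_prod_map₀ f w h0 h

lemma two_liou {g G : ℤ[X]} (hg : Irreducible g) {α : ℂ} (hα : aeval α g = 0)
    (hG : aeval α G ≠ 0) {N : ℕ} (hN : G.natDegree ≤ N) {L : ℝ} (hL : 1 ≤ L)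
    (hw : ∀ β : ℂ, aeval β g = 0 → ‖aeval β G‖ ≤ L * max 1 ‖β‖ ^ N) :
    1 ≤ ‖aeval α G‖ * (L ^ g.natDegree * (g.map (Int.castRingHom ℂ)).mahlerMeasure ^ N) := by
  set φ := Int.castRingHom ℂ with hφ
  have hinj : Function.Injective φ := φ.injective_int
  have hg0 : g.map φ ≠ 0 := (Polynomial.map_ne_zero_iff hinj).2 hg.ne_zero
  have hdeg : (g.map φ).natDegree = g.natDegree := natDegree_map_eq_of_injective hinj _
  have hres := resultant_eq_prod_eval (g.map φ) (G.map φ) N (natDegree_map_le.trans hN)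
    (IsAlgClosed.splits _)
  rw [hdeg, resultant_map_map] at hres
  have hroot : ∀ β ∈ (g.map φ).roots, aeval β g = 0 := by
    intro β hβ
    rw [← two_eval_map]
    exact (mem_roots hg0).1 hβ
  have hne : φ (resultant g G g.natDegree N) ≠ 0 := by
    rw [hres]
    refine mul_ne_zero (pow_ne_zero _ (leadingCoeff_ne_zero.2 hg0)) ?_
    refine Multiset.prod_ne_zero ?_
    intro h0
    obtain ⟨β, hβ, h1⟩ := Multiset.mem_map.1 h0
    rw [two_eval_map] at h1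
    obtain ⟨q, hq⟩ := two_conj hg (hroot β hβ) h1
    apply hG
    rw [hq, map_mul, hα, zero_mul]
  have h1 : 1 ≤ ‖φ (resultant g G g.natDegree N)‖ := by
    have h2 : resultant g G g.natDegree N ≠ 0 := by
      intro h0
      apply hne
      rw [h0, map_zero]
    rw [hφ, eq_intCast, Complex.norm_intCast]
    exact_mod_cast Int.one_le_abs h2
  have hmem : α ∈ (g.map φ).roots := by
    rw [mem_roots hg0, IsRoot.def, two_eval_map]
    exact hα
  obtain ⟨t, ht⟩ := Multiset.exists_cons_of_mem hmem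
  have hcard : (g.map φ).roots.card = g.natDegree := by
    rw [← hdeg]
    exact (IsAlgClosed.splits _).natDegree_eq_card_roots.symm
  have hprod : ‖(t.map (G.map φ).eval).prod‖ ≤
      L ^ g.natDegree * ((g.map φ).roots.map (fun a => max 1 ‖a‖)).prod ^ N := by
    have e1 : ‖(t.map (G.map φ).eval).prod‖ = (t.map fun β => ‖aeval β G‖).prod := by
      have := map_multiset_prod (normHom : ℂ →*₀ ℝ) (t.map (G.map φ).eval)
      simp only [normHom_apply, Multiset.map_map, Function.comp_def] at this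
      rw [this]
      simp only [hφ, two_eval_map]
    have e2 : (t.map fun β => ‖aeval β G‖).prod ≤ (t.map fun β => L * max 1 ‖β‖ ^ N).prod :=
      two_prod_le (fun x _ => norm_nonneg _) fun x hx =>
        hw x (hroot x (by rw [ht]; exact Multiset.mem_cons_of_mem hx))
    have e3 : (t.map fun β => L * max 1 ‖β‖ ^ N).prod ≤
        ((g.map φ).roots.map fun β => L * max 1 ‖β‖ ^ N).prod := by
      rw [ht, Multiset.map_cons, Multiset.prod_cons]
      refine le_mul_of_one_le_left ?_ ?_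
      · refine Multiset.prod_nonneg ?_
        intro x hx
        obtain ⟨y, _, rfl⟩ := Multiset.mem_map.1 hx
        positivity
      · exact one_le_mul_of_one_le_of_one_le hL (one_le_pow₀ (le_max_left _ _))
    have e4 : ((g.map φ).roots.map fun β => L * max 1 ‖β‖ ^ N).prod =
        L ^ g.natDegree * ((g.map φ).roots.map (fun a => max 1 ‖a‖)).prod ^ N := by
      rw [Multiset.prod_map_mul, Multiset.map_const', Multiset.prod_replicate, hcard,
        Multiset.prod_map_pow]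
    rw [e1, ← e4]
    exact e2.trans e3
  rw [hres, ht, Multiset.map_cons, Multiset.prod_cons, norm_mul, norm_mul, norm_pow,
    two_eval_map] at h1
  rw [mahlerMeasure_eq_leadingCoeff_mul_prod_roots, mul_pow]
  refine h1.trans ?_
  calc ‖(g.map φ).leadingCoeff‖ ^ N * (‖aeval α G‖ * ‖(t.map (G.map φ).eval).prod‖)
      ≤ ‖(g.map φ).leadingCoeff‖ ^ N * (‖aeval α G‖ * (L ^ g.natDegree *
        ((g.map φ).roots.map (fun a => max 1 ‖a‖)).prod ^ N)) := by gcongr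
    _ = _ := by ring

lemma two_grow {F : ℂ[X]} {η z : ℂ} {δ t : ℝ} (ht : 0 ≤ t)
    (hfar : ∀ α ∈ F.roots, δ ≤ ‖η - α‖) (hz : ‖z - η‖ ≤ t * δ) :
    ‖F.eval z‖ ≤ ‖F.eval η‖ * (1 + t) ^ F.natDegree := by
  have hsp : F.Splits := IsAlgClosed.splits _
  have e : ∀ w : ℂ, ‖F.eval w‖ = ‖F.leadingCoeff‖ * (F.roots.map fun α => ‖w - α‖).prod := by
    intro w
    rw [hsp.eval_eq_prod_roots, norm_mul]
    congr 1
    have := map_multiset_prod (normHom : ℂ →*₀ ℝ) (F.roots.map fun α => w - α)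
    simpa only [normHom_apply, Multiset.map_map, Function.comp_def] using this
  rw [e z, e η, mul_assoc]
  refine mul_le_mul_of_nonneg_left ?_ (norm_nonneg _)
  rw [hsp.natDegree_eq_card_roots, ← Multiset.prod_replicate, ← Multiset.map_const',
    ← Multiset.prod_map_mul]
  refine two_prod_le (fun x _ => norm_nonneg _) fun α hα => ?_
  have h1 : ‖z - α‖ ≤ ‖z - η‖ + ‖η - α‖ := norm_sub_le_norm_sub_add_norm_sub _ _ _
  have h2 := hfar α hα
  nlinarith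

lemma two_ident (k c : ℤ) {x y u v : ℂ} (hx : x ≠ 0) (hy : y ≠ 0) (hu : u ≠ 0) (hv : v ≠ 0) :
    (k : ℂ) * ((2 - (u + u⁻¹)) * (2 - (v + v⁻¹))) =
      PV k c (x * u ^ 4) (y * v ^ 4) - ((u + u⁻¹) + (v + v⁻¹)) * PV k c (x * u ^ 3) (y * v ^ 3)
        + (2 + (u + u⁻¹) * (v + v⁻¹)) * PV k c (x * u ^ 2) (y * v ^ 2)
        - ((u + u⁻¹) + (v + v⁻¹)) * PV k c (x * u ^ 1) (y * v ^ 1)
        + PV k c (x * u ^ 0) (y * v ^ 0) := by
  unfold PV
  field_simp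
  ring

lemma two_cos (θ : ℝ) : Complex.exp (Complex.I * θ) + (Complex.exp (Complex.I * θ))⁻¹ =
    ((2 * Real.cos θ : ℝ) : ℂ) := by
  rw [← Complex.exp_neg]
  push_cast
  rw [Complex.two_cos]
  ring_nf

lemma two_cos_lb {θ φ : ℝ} (h0 : 0 ≤ φ) (h1 : φ ≤ θ) (h2 : θ ≤ 1) :
    φ ^ 2 / 4 ≤ 2 - 2 * Real.cos θ := by
  have hpi := Real.pi_gt_three
  have hpi' := Real.pi_lt_four
  have h3 := Real.cos_le_one_sub_mul_cos_sq (x := θ) (by rw [abs_of_nonneg (by linarith)]; linarith)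
  have h4 : 1 / 8 ≤ 2 / Real.pi ^ 2 := by
    rw [div_le_div_iff₀ (by norm_num) (by positivity)]
    nlinarith
  have h5 : φ ^ 2 ≤ θ ^ 2 := by nlinarith
  nlinarith [sq_nonneg θ]

lemma two_near {k c : ℤ} (h : Adm k c) {a b : ℕ} (hb : 1 ≤ b) (hab : b < a) {η : ℂ}
    (hη : ‖η‖ = 1) {δ : ℝ} (hδ : 0 < δ) (hδ1 : δ ≤ 1)
    (hs : 48 * ‖aeval η (FP k c a b)‖ < (δ / (16 * a)) ^ 4) :
    ∃ α : ℂ, aeval α (FP k c a b) = 0 ∧ ‖η - α‖ < δ := by
  by_contra hcon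
  push Not at hcon
  set F := (FP k c a b).map (Int.castRingHom ℂ) with hF
  have hF0 : F ≠ 0 :=
    (Polynomial.map_ne_zero_iff (Int.castRingHom ℂ).injective_int).2 (two_ne_zero h a b)
  have hfar : ∀ α ∈ F.roots, δ ≤ ‖η - α‖ := by
    intro α hα
    apply hcon
    rw [← two_eval_map]
    exact (mem_roots hF0).1 hα
  have ha : (1 : ℝ) ≤ a := by exact_mod_cast (by omega : 1 ≤ a)
  have hb' : (1 : ℝ) ≤ b := by exact_mod_cast hb
  have hab' : (b : ℝ) ≤ a := by exact_mod_cast hab.le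
  set φ : ℝ := δ / (8 * a) with hφ
  have hφ0 : 0 < φ := by positivity
  have hη0 : η ≠ 0 := by
    rintro rfl
    simp at hη
  set u := Complex.exp (Complex.I * ((a * φ : ℝ) : ℂ)) with hu
  set v := Complex.exp (Complex.I * ((b * φ : ℝ) : ℂ)) with hv
  set ε := ‖aeval η (FP k c a b)‖ with hε
  have hval : ∀ j : ℕ, j ≤ 4 → ‖PV k c (η ^ a * u ^ j) (η ^ b * v ^ j)‖ ≤ 3 * ε := by
    intro j hj
    set z := η * Complex.exp (Complex.I * ((j * φ : ℝ) : ℂ)) with hz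
    have hz1 : ‖z‖ = 1 := by rw [hz, norm_mul, hη, Complex.norm_exp_I_mul_ofReal, one_mul]
    have e1 : z ^ a = η ^ a * u ^ j := by
      rw [hz, hu, mul_pow, ← Complex.exp_nat_mul, ← Complex.exp_nat_mul]
      congr 2
      push_cast
      ring
    have e2 : z ^ b = η ^ b * v ^ j := by
      rw [hz, hv, mul_pow, ← Complex.exp_nat_mul, ← Complex.exp_nat_mul]
      congr 2
      push_cast
      ring
    rw [← e1, ← e2, ← two_norm_PV k c hab.le hz1, ← two_eval_map]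
    have hj' : (j : ℝ) ≤ 4 := by exact_mod_cast hj
    have hd : ‖z - η‖ ≤ 1 / (2 * a) * δ := by
      have e3 : z - η = η * (Complex.exp (Complex.I * ((j * φ : ℝ) : ℂ)) - 1) := by
        rw [hz]
        ring
      rw [e3, norm_mul, hη, one_mul]
      refine Real.norm_exp_I_mul_ofReal_sub_one_le.trans ?_
      rw [Real.norm_eq_abs, abs_of_nonneg (by positivity)]
      calc (j : ℝ) * φ ≤ 4 * φ := by gcongr
        _ = 1 / (2 * a) * δ := by rw [hφ]; field_simp; norm_num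
    refine (two_grow (by positivity) hfar hd).trans ?_
    rw [hF, two_eval_map, mul_comm]
    refine mul_le_mul_of_nonneg_right ?_ (norm_nonneg _)
    have hdeg : ((FP k c a b).map (Int.castRingHom ℂ)).natDegree ≤ 2 * a :=
      natDegree_map_le.trans (two_natDegree k c hab.le)
    calc (1 + 1 / (2 * (a : ℝ))) ^ ((FP k c a b).map (Int.castRingHom ℂ)).natDegree
        ≤ (1 + 1 / (2 * (a : ℝ))) ^ (2 * a) :=
          pow_le_pow_right₀ (le_add_of_nonneg_right (by positivity)) hdeg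
      _ ≤ Real.exp (1 / (2 * (a : ℝ))) ^ (2 * a) := by
          gcongr
          linarith [Real.add_one_le_exp (1 / (2 * (a : ℝ)))]
      _ = Real.exp 1 := by
          rw [← Real.exp_nat_mul]
          congr 1
          push_cast
          field_simp
      _ ≤ 3 := by linarith [Real.exp_one_lt_d9]
  have hid := two_ident k c (pow_ne_zero a hη0) (pow_ne_zero b hη0)
    (show u ≠ 0 from Complex.exp_ne_zero _) (show v ≠ 0 from Complex.exp_ne_zero _)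
  rw [hu, hv, two_cos, two_cos, ← hu, ← hv] at hid
  have haφ : (a : ℝ) * φ ≤ 1 := by
    have : (a : ℝ) * φ = δ / 8 := by rw [hφ]; field_simp
    linarith
  have l1 := two_cos_lb (θ := a * φ) hφ0.le (by nlinarith) haφ
  have l2 := two_cos_lb (θ := b * φ) hφ0.le (by nlinarith) (by nlinarith)
  set σ := 2 * Real.cos (a * φ) with hσ
  set τ := 2 * Real.cos (b * φ) with hτ
  have hσ1 : |σ| ≤ 2 := by
    rw [hσ, abs_mul, abs_two]
    linarith [Real.abs_cos_le_one (a * φ)]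
  have hτ1 : |τ| ≤ 2 := by
    rw [hτ, abs_mul, abs_two]
    linarith [Real.abs_cos_le_one (b * φ)]
  have n1 : ‖(σ : ℂ) + (τ : ℂ)‖ ≤ 4 := by
    refine (norm_add_le _ _).trans ?_
    rw [Complex.norm_real, Complex.norm_real, Real.norm_eq_abs, Real.norm_eq_abs]
    linarith
  have n2 : ‖2 + (σ : ℂ) * (τ : ℂ)‖ ≤ 6 := by
    refine (norm_add_le _ _).trans ?_
    rw [norm_mul, Complex.norm_real, Complex.norm_real, Real.norm_eq_abs, Real.norm_eq_abs,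
      Complex.norm_two]
    nlinarith [abs_nonneg σ, abs_nonneg τ]
  have hk : (1 : ℝ) ≤ ‖(k : ℂ)‖ := by
    rw [Complex.norm_intCast]
    exact_mod_cast Int.one_le_abs h.1
  have lhs : (φ ^ 2 / 4) * (φ ^ 2 / 4) ≤ ‖(k : ℂ) * ((2 - (σ : ℂ)) * (2 - (τ : ℂ)))‖ := by
    have e : (2 - (σ : ℂ)) * (2 - (τ : ℂ)) = (((2 - σ) * (2 - τ) : ℝ) : ℂ) := by push_cast; ring
    rw [norm_mul, e, Complex.norm_real, Real.norm_eq_abs]
    have m1 : (φ ^ 2 / 4) * (φ ^ 2 / 4) ≤ (2 - σ) * (2 - τ) :=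
      mul_le_mul l1 l2 (by positivity) (le_trans (by positivity) l1)
    exact m1.trans ((le_abs_self _).trans (le_mul_of_one_le_left (abs_nonneg _) hk))
  have hε0 : 0 ≤ ε := norm_nonneg _
  have rhs : ‖(k : ℂ) * ((2 - (σ : ℂ)) * (2 - (τ : ℂ)))‖ ≤ 48 * ε := by
    rw [hid]
    have t4 := hval 4 le_rfl
    have t0 := hval 0 (by omega)
    have t3 : ‖((σ : ℂ) + (τ : ℂ)) * PV k c (η ^ a * u ^ 3) (η ^ b * v ^ 3)‖ ≤ 4 * (3 * ε) := by
      rw [norm_mul]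
      exact mul_le_mul n1 (hval 3 (by omega)) (norm_nonneg _) (by norm_num)
    have t1 : ‖((σ : ℂ) + (τ : ℂ)) * PV k c (η ^ a * u ^ 1) (η ^ b * v ^ 1)‖ ≤ 4 * (3 * ε) := by
      rw [norm_mul]
      exact mul_le_mul n1 (hval 1 (by omega)) (norm_nonneg _) (by norm_num)
    have t2 : ‖(2 + (σ : ℂ) * (τ : ℂ)) * PV k c (η ^ a * u ^ 2) (η ^ b * v ^ 2)‖ ≤
        6 * (3 * ε) := by
      rw [norm_mul]
      exact mul_le_mul n2 (hval 2 (by omega)) (norm_nonneg _) (by norm_num)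
    refine (norm_add_le _ _).trans ?_
    refine (add_le_add (norm_sub_le _ _) le_rfl).trans ?_
    refine (add_le_add (add_le_add (norm_add_le _ _) le_rfl) le_rfl).trans ?_
    refine (add_le_add (add_le_add (add_le_add (norm_sub_le _ _) le_rfl) le_rfl) le_rfl).trans ?_
    linarith
  have e : (φ ^ 2 / 4) * (φ ^ 2 / 4) = (δ / (16 * a)) ^ 4 := by
    rw [hφ]
    field_simp
    norm_num
  linarith

lemma two_not_pth {k c : ℤ} (h : Adm k c) {a b p : ℕ} (hb : b ≤ a) (hp : p.Prime)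
    (hap : 2 * a + 1 < p) {α : ℂ} (hα : aeval α (FP k c a b) = 0) : α ^ p ≠ 1 := by
  intro h1
  have hne : α ≠ 1 := by
    rintro rfl
    exact two_aeval_one h a b hα
  have := Fact.mk hp
  have hord : orderOf α = p := orderOf_eq_prime h1 hne
  have hprim : IsPrimitiveRoot α p := hord ▸ IsPrimitiveRoot.orderOf α
  have hle := hprim.totient_le_degree_minpoly
  have hdvd : minpoly ℤ α ∣ FP k c a b :=
    minpoly.isIntegrallyClosed_dvd (hprim.isIntegral hp.pos) hα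
  have := natDegree_le_of_dvd hdvd (two_ne_zero h a b)
  have := two_natDegree k c hb
  rw [Nat.totient_prime hp] at hle
  omega

lemma two_norm_one {α : ℂ} {n : ℕ} (hn : 0 < n) (h : α ^ n = 1) : ‖α‖ = 1 := by
  have h1 : ‖α‖ ^ n = 1 := by rw [← norm_pow, h, norm_one]
  exact (pow_eq_one_iff_of_nonneg (norm_nonneg _) hn.ne').1 h1

lemma two_unity {g : ℤ[X]} (hg : Irreducible g) {α : ℂ} (hα : aeval α g = 0) {n p : ℕ}
    (hn : 0 < n) (h1 : α ^ n = 1) (hp : α ^ p ≠ 1) : 1 ≤ ‖α ^ p - 1‖ * 2 ^ g.natDegree := by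
  have hdvd : g ∣ X ^ n - C 1 := two_conj hg hα (by simp [h1])
  have hroot : ∀ β : ℂ, aeval β g = 0 → ‖β‖ = 1 := by
    intro β hβ
    obtain ⟨q, hq⟩ := hdvd
    have h2 : aeval β (X ^ n - C 1 : ℤ[X]) = 0 := by rw [hq, map_mul, hβ, zero_mul]
    refine two_norm_one hn ?_
    simpa [sub_eq_zero] using h2
  have hl := two_liou (G := X ^ p - C 1) hg hα (by simpa [sub_eq_zero] using hp) (N := p)
    (by rw [natDegree_X_pow_sub_C]) (L := 2) (by norm_num) (by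
      intro β hβ
      have h2 := hroot β hβ
      have h3 : aeval β (X ^ p - C 1 : ℤ[X]) = β ^ p - 1 := by simp
      rw [h3, h2, max_self, one_pow]
      refine (norm_sub_le _ _).trans ?_
      rw [norm_pow, h2, one_pow, norm_one]
      norm_num)
  have hinj : Function.Injective (Int.castRingHom ℂ) := (Int.castRingHom ℂ).injective_int
  have hM : (g.map (Int.castRingHom ℂ)).mahlerMeasure = 1 := by
    rw [mahlerMeasure_eq_leadingCoeff_mul_prod_roots, leadingCoeff_map_of_injective hinj]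
    have h2 : g.leadingCoeff ∣ 1 := by
      have := leadingCoeff_dvd_leadingCoeff hdvd
      rwa [(monic_X_pow_sub_C (1 : ℤ) hn.ne').leadingCoeff] at this
    have h3 : ‖(Int.castRingHom ℂ) g.leadingCoeff‖ = 1 := by
      rw [eq_intCast, Complex.norm_intCast]
      rcases Int.isUnit_iff.1 (isUnit_of_dvd_one h2) with h4 | h4 <;> simp [h4]
    rw [h3, one_mul]
    refine Multiset.prod_eq_one ?_
    intro x hx
    obtain ⟨β, hβ, rfl⟩ := Multiset.mem_map.1 hx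
    have h5 : aeval β g = 0 := by
      rw [← two_eval_map]
      exact (mem_roots ((Polynomial.map_ne_zero_iff hinj).2 hg.ne_zero)).1 hβ
    rw [hroot β h5, max_self]
  rw [hM, one_pow, mul_one] at hl
  simpa using hl

lemma two_big (D : ℝ) (hD : 1 ≤ D) : ∃ p₀ : ℕ, ∀ p : ℕ, p₀ ≤ p → ∀ a : ℕ, a ^ 4 ≤ 16 * p ^ 3 →
    D * (p : ℝ) ^ 4 * D ^ a < Real.exp ((p : ℝ) ^ (151 / 200 : ℝ) / 8) := by
  have ht : Filter.Tendsto (fun p : ℕ => (p : ℝ) ^ (1 / 200 : ℝ)) Filter.atTop Filter.atTop :=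
    (tendsto_rpow_atTop (by norm_num)).comp tendsto_natCast_atTop_atTop
  obtain ⟨p₀, hp₀⟩ := Filter.eventually_atTop.1
    ((ht.eventually_gt_atTop (8 * (3 * Real.log D + 6))).and (Filter.eventually_ge_atTop 1))
  refine ⟨p₀, fun p hp a ha => ?_⟩
  obtain ⟨h1, h2⟩ := hp₀ p hp
  have hp1 : (1 : ℝ) ≤ p := by exact_mod_cast h2
  set T : ℝ := (p : ℝ) ^ (3 / 4 : ℝ) with hT
  have hT1 : 1 ≤ T := Real.one_le_rpow hp1 (by norm_num)
  have hT4 : T ^ 4 = (p : ℝ) ^ 3 := by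
    rw [hT, ← Real.rpow_natCast, ← Real.rpow_mul (by linarith)]
    norm_num
  have haT : (a : ℝ) ≤ 2 * T := by
    refine (pow_le_pow_iff_left₀ (by positivity) (by positivity) (by norm_num : (4 : ℕ) ≠ 0)).1 ?_
    rw [mul_pow, hT4]
    have : ((a ^ 4 : ℕ) : ℝ) ≤ ((16 * p ^ 3 : ℕ) : ℝ) := by exact_mod_cast ha
    push_cast at this
    linarith
  have hlog : Real.log p ≤ 4 / 3 * T := by
    have e : Real.log T = 3 / 4 * Real.log p := by rw [hT, Real.log_rpow (by linarith)]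
    have := Real.log_le_sub_one_of_pos (show 0 < T by linarith)
    linarith
  have hL : 0 ≤ Real.log D := Real.log_nonneg hD
  have e : (p : ℝ) ^ (151 / 200 : ℝ) = T * (p : ℝ) ^ (1 / 200 : ℝ) := by
    rw [hT, ← Real.rpow_add (by linarith)]
    norm_num
  have e2 : D * (p : ℝ) ^ 4 * D ^ a = Real.exp (Real.log D + 4 * Real.log p + a * Real.log D) := by
    rw [Real.exp_add, Real.exp_add, Real.exp_log (by linarith), Real.exp_nat_mul,
      Real.exp_log (by linarith)]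
    congr 2
    rw [show (4 : ℝ) = ((4 : ℕ) : ℝ) by norm_num, Real.exp_nat_mul, Real.exp_log (by linarith)]
  rw [e2, Real.exp_lt_exp, e]
  have m1 : (a : ℝ) * Real.log D ≤ 2 * T * Real.log D := by gcongr
  have m2 : Real.log D ≤ T * Real.log D := le_mul_of_one_le_left hL hT1
  have m3 : T * (8 * (3 * Real.log D + 6)) < T * (p : ℝ) ^ (1 / 200 : ℝ) := by gcongr
  nlinarith

lemma two_core (h : SDeg) {k c : ℤ} (hA : Adm k c) : ∃ A₀ p₀ : ℕ, ∀ p : ℕ, p.Prime → p₀ ≤ p →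
    ∀ η : ℂ, η ^ p = 1 → ∀ a₁ b₁ a₂ b₂ : ℕ, 1 ≤ b₁ → b₁ < a₁ → b₂ < a₂ →
      Nat.gcd (Nat.gcd a₁ b₁) (Nat.gcd a₂ b₂) = 1 → A₀ ≤ max a₁ a₂ →
      a₁ ^ 4 ≤ 16 * p ^ 3 → a₂ ^ 4 ≤ 16 * p ^ 3 →
      ‖PV k c (η ^ a₁) (η ^ b₁)‖ ≤ Real.exp (-(p : ℝ) ^ (151 / 200 : ℝ)) →
      ‖PV k c (η ^ a₂) (η ^ b₂)‖ ≤ Real.exp (-(p : ℝ) ^ (151 / 200 : ℝ)) →
      a₁ = a₂ ∧ b₁ = b₂ := by
  obtain ⟨A₀, hA₀⟩ := h k c hA
  have hc : (1 : ℝ) ≤ c := by exact_mod_cast two_c_pos hA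
  set D : ℝ := 48 * 16 ^ 4 * (8 * (c : ℝ)) ^ 4 with hD
  have hc4 : (8 * (c : ℝ)) ≤ (8 * (c : ℝ)) ^ 4 := le_self_pow₀ (by linarith) (by norm_num)
  have hD1 : 48 * 16 ^ 4 ≤ D := le_mul_of_one_le_right (by norm_num) (by linarith)
  have hD2 : 16 * (8 * (c : ℝ)) ^ 4 ≤ D := by rw [hD]; nlinarith
  obtain ⟨p₀, hp₀⟩ := two_big D (by linarith)
  refine ⟨A₀, max p₀ 10001, ?_⟩
  intro p hp hpp η hη a₁ b₁ a₂ b₂ hb₁ hab₁ hab₂ hg hmax ha₁ ha₂ hs₁ hs₂
  have hp1 : p₀ ≤ p := le_of_max_le_left hpp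
  have hp2 : 10001 ≤ p := le_of_max_le_right hpp
  have hη1 : ‖η‖ = 1 := two_norm_one hp.pos hη
  set a := max a₁ a₂ with ha
  have haa : a ^ 4 ≤ 16 * p ^ 3 := by
    rcases max_choice a₁ a₂ with e | e <;> rw [ha, e] <;> assumption
  have h5 : 5 * a < p := by
    refine lt_of_pow_lt_pow_left₀ 4 (Nat.zero_le _) ?_
    have : 0 < p ^ 3 := by positivity
    calc (5 * a) ^ 4 = 625 * a ^ 4 := by ring
      _ ≤ 625 * (16 * p ^ 3) := by gcongr
      _ < 10001 * p ^ 3 := by omega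
      _ ≤ p * p ^ 3 := by gcongr
      _ = p ^ 4 := by ring
  have ha1 : a₁ ≤ a := le_max_left _ _
  have ha2 : a₂ ≤ a := le_max_right _ _
  have hbig := hp₀ p hp1 a haa
  set X := Real.exp ((p : ℝ) ^ (151 / 200 : ℝ) / 8) with hX
  have hX1 : 1 ≤ X := Real.one_le_exp (by positivity)
  set δ := X⁻¹ with hδ
  have hδ0 : 0 < δ := by positivity
  have hδ1 : δ ≤ 1 := inv_le_one_of_one_le₀ hX1
  have hXδ : X * δ = 1 := mul_inv_cancel₀ (by linarith)
  have hexp : Real.exp (-(p : ℝ) ^ (151 / 200 : ℝ)) = δ ^ 8 := by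
    rw [hδ, hX, ← Real.exp_neg, ← Real.exp_nat_mul]
    congr 1
    push_cast
    ring
  rw [hexp, ← two_norm_PV k c hab₁.le hη1] at hs₁
  rw [hexp, ← two_norm_PV k c hab₂.le hη1] at hs₂
  have hpR : (1 : ℝ) ≤ p := by exact_mod_cast hp.one_le
  have hp4 : (1 : ℝ) ≤ (p : ℝ) ^ 4 := one_le_pow₀ hpR
  have hDa : (1 : ℝ) ≤ D ^ a := one_le_pow₀ (by linarith)
  have hfin : ∀ Y : ℝ, Y ≤ D * (p : ℝ) ^ 4 * D ^ a → Y * δ < 1 := by
    intro Y hY
    rw [← hXδ]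
    exact mul_lt_mul_of_pos_right (hY.trans_lt hbig) hδ0
  have ha₁R : (1 : ℝ) ≤ a₁ := by exact_mod_cast (by omega : 1 ≤ a₁)
  obtain ⟨α, hα, hd⟩ := two_near hA hb₁ hab₁ hη1 hδ0 hδ1 (by
    have e1 : (a₁ : ℝ) ≤ p := by exact_mod_cast (by omega : a₁ ≤ p)
    have e2 : 48 * (16 * (a₁ : ℝ)) ^ 4 ≤ D * (p : ℝ) ^ 4 * D ^ a := by
      calc 48 * (16 * (a₁ : ℝ)) ^ 4 = 48 * 16 ^ 4 * (a₁ : ℝ) ^ 4 * 1 := by ring
        _ ≤ D * (p : ℝ) ^ 4 * D ^ a := by gcongr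
    have e3 := hfin _ e2
    have e4 : δ ^ 8 ≤ δ * δ ^ 4 := by
      rw [← pow_succ']
      exact pow_le_pow_of_le_one hδ0.le hδ1 (by norm_num)
    rw [div_pow, lt_div_iff₀ (by positivity)]
    have e5 : 0 < δ ^ 4 := by positivity
    calc 48 * ‖aeval η (FP k c a₁ b₁)‖ * (16 * (a₁ : ℝ)) ^ 4
        ≤ 48 * (δ * δ ^ 4) * (16 * (a₁ : ℝ)) ^ 4 := by gcongr; exact hs₁.trans e4
      _ = (48 * (16 * (a₁ : ℝ)) ^ 4 * δ) * δ ^ 4 := by ring
      _ < 1 * δ ^ 4 := mul_lt_mul_of_pos_right e3 e5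
      _ = δ ^ 4 := one_mul _)
  obtain ⟨g, hgi, hgd, hgα⟩ := two_irr (two_ne_zero hA a₁ b₁) hα
  have hdeg : g.natDegree ≤ 2 * a :=
    (natDegree_le_of_dvd hgd (two_ne_zero hA a₁ b₁)).trans
      ((two_natDegree k c hab₁.le).trans (by omega))
  have hα0 : α ≠ 0 := by
    rintro rfl
    exact two_aeval_zero hA hab₁ hα
  have hα2 : ‖α‖ ≤ 2 := by
    have : ‖α‖ ≤ ‖η‖ + ‖η - α‖ := by
      have := norm_sub_le η (η - α)
      rwa [sub_sub_cancel] at this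
    linarith
  have hM : (g.map (Int.castRingHom ℂ)).mahlerMeasure ≤ 8 * (c : ℝ) := by
    obtain ⟨q, hq⟩ := hgd
    have hq0 : q ≠ 0 := by
      rintro rfl
      exact two_ne_zero hA a₁ b₁ (by rw [hq, mul_zero])
    have e := two_mahler hA hab₁.le
    rw [hq, Polynomial.map_mul, mahlerMeasure_mul] at e
    exact (le_mul_of_one_le_right (mahlerMeasure_nonneg _)
      (one_le_mahlerMeasure_of_ne_zero hq0)).trans e
  have hF2 : aeval α (FP k c a₂ b₂) = 0 := by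
    by_contra hne
    have hl := two_liou hgi hgα hne (two_natDegree k c hab₂.le) (L := 8 * (c : ℝ)) (by linarith)
      fun β _ => two_norm_le hA hab₂.le β
    have e1 := two_diff_le hA hab₂.le hα2 (show ‖η‖ ≤ 2 by linarith)
    have e2 : ‖aeval α (FP k c a₂ b₂)‖ ≤ 8 * (c : ℝ) * (16 ^ a * δ) := by
      have f1 := norm_le_norm_add_norm_sub' (aeval α (FP k c a₂ b₂)) (aeval η (FP k c a₂ b₂))
      have f2 : (16 : ℝ) ^ a₂ * ‖α - η‖ ≤ 16 ^ a * δ := by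
        rw [norm_sub_rev]
        gcongr
        norm_num
      have f3 : δ ^ 8 ≤ δ := pow_le_of_le_one hδ0.le hδ1 (by norm_num)
      have f4 : δ ≤ 16 ^ a * δ := le_mul_of_one_le_left hδ0.le (one_le_pow₀ (by norm_num))
      have f5 : 16 ^ a * δ ≤ (c : ℝ) * (16 ^ a * δ) := le_mul_of_one_le_left (by positivity) hc
      have f6 : 7 * (c : ℝ) * (16 ^ a₂ * ‖α - η‖) ≤ 7 * (c : ℝ) * (16 ^ a * δ) := by gcongr
      linarith
    have e3 : (8 * (c : ℝ)) ^ g.natDegree *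
        (g.map (Int.castRingHom ℂ)).mahlerMeasure ^ (2 * a₂) ≤
        (8 * (c : ℝ)) ^ (2 * a) * (8 * (c : ℝ)) ^ (2 * a) := by
      refine mul_le_mul (pow_le_pow_right₀ (by linarith) hdeg) ?_
        (pow_nonneg (mahlerMeasure_nonneg _) _) (by positivity)
      exact (pow_le_pow_left₀ (mahlerMeasure_nonneg _) hM _).trans
        (pow_le_pow_right₀ (by linarith) (by omega))
    have e4 : 8 * (c : ℝ) * (16 * (8 * (c : ℝ)) ^ 4) ^ a ≤ D * (p : ℝ) ^ 4 * D ^ a := by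
      calc 8 * (c : ℝ) * (16 * (8 * (c : ℝ)) ^ 4) ^ a
          = 8 * (c : ℝ) * 1 * (16 * (8 * (c : ℝ)) ^ 4) ^ a := by ring
        _ ≤ D * (p : ℝ) ^ 4 * D ^ a := by
          gcongr
          nlinarith
    have e5 := hfin _ e4
    have e6 := mul_le_mul e2 e3 (mul_nonneg (by positivity)
      (pow_nonneg (mahlerMeasure_nonneg _) _)) (by positivity)
    have e7 : 8 * (c : ℝ) * (16 ^ a * δ) * ((8 * (c : ℝ)) ^ (2 * a) * (8 * (c : ℝ)) ^ (2 * a)) =
        8 * (c : ℝ) * (16 * (8 * (c : ℝ)) ^ 4) ^ a * δ := by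
      rw [mul_pow 16, ← pow_mul, ← pow_add, show 2 * a + 2 * a = 4 * a by ring]
      ring
    linarith
  have hnr : ∀ n : ℕ, 0 < n → α ^ n ≠ 1 := by
    intro n hn h1
    have hl := two_unity hgi hgα hn h1 (two_not_pth hA hab₁.le hp (by omega) hα)
    have e1 := two_pow_diff le_rfl (two_norm_one hn h1).le hη1.le p
    rw [hη, one_pow, mul_one, norm_sub_rev α η] at e1
    have e2 : (2 : ℝ) ^ g.natDegree ≤ 4 ^ a := by
      calc (2 : ℝ) ^ g.natDegree ≤ 2 ^ (2 * a) := pow_le_pow_right₀ (by norm_num) hdeg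
        _ = 4 ^ a := by rw [pow_mul]; norm_num
    have e3 : (p : ℝ) * 4 ^ a ≤ D * (p : ℝ) ^ 4 * D ^ a := by
      calc (p : ℝ) * 4 ^ a = 1 * (p : ℝ) * 4 ^ a := by ring
        _ ≤ D * (p : ℝ) ^ 4 * D ^ a := by
          gcongr
          · linarith
          · exact le_self_pow₀ hpR (by norm_num)
          · linarith
    have e4 := hfin _ e3
    have e5 : ‖α ^ p - 1‖ * 2 ^ g.natDegree ≤ (p * δ) * 4 ^ a :=
      mul_le_mul (e1.trans (by gcongr)) e2 (by positivity) (by positivity)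
    nlinarith
  have z1 : PV k c (α ^ a₁) (α ^ b₁) = 0 := by
    rw [two_aeval_PV k c hab₁.le hα0] at hα
    exact (mul_eq_zero.1 hα).resolve_left (pow_ne_zero _ hα0)
  have z2 : PV k c (α ^ a₂) (α ^ b₂) = 0 := by
    rw [two_aeval_PV k c hab₂.le hα0] at hF2
    exact (mul_eq_zero.1 hF2).resolve_left (pow_ne_zero _ hα0)
  exact hA₀ a₁ b₁ a₂ b₂ hab₁ hab₂ hg hmax α hα0 hnr z1 z2

lemma two_swap (k c : ℤ) (x y : ℂ) : PV k c x y = PV k c y x := by
  unfold PV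
  ring

lemma two_core' (h : SDeg) {k c : ℤ} (hA : Adm k c) : ∃ A₀ p₀ : ℕ, ∀ p : ℕ, p.Prime → p₀ ≤ p →
    ∀ η : ℂ, η ^ p = 1 → ∀ a₁ b₁ a₂ b₂ : ℕ, 1 ≤ a₁ → 1 ≤ b₁ → a₁ ≠ b₁ → a₂ ≠ b₂ →
      Nat.gcd (Nat.gcd a₁ b₁) (Nat.gcd a₂ b₂) = 1 → A₀ ≤ max a₁ b₁ →
      a₁ ^ 4 ≤ 16 * p ^ 3 → b₁ ^ 4 ≤ 16 * p ^ 3 → a₂ ^ 4 ≤ 16 * p ^ 3 → b₂ ^ 4 ≤ 16 * p ^ 3 →
      ‖PV k c (η ^ a₁) (η ^ b₁)‖ ≤ Real.exp (-(p : ℝ) ^ (151 / 200 : ℝ)) →
      ‖PV k c (η ^ a₂) (η ^ b₂)‖ ≤ Real.exp (-(p : ℝ) ^ (151 / 200 : ℝ)) →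
      (a₂ = a₁ ∧ b₂ = b₁) ∨ (a₂ = b₁ ∧ b₂ = a₁) := by
  obtain ⟨A₀, p₀, H⟩ := two_core h hA
  refine ⟨A₀, p₀, ?_⟩
  intro p hp hpp η hη a₁ b₁ a₂ b₂ h1 h2 h3 h4 hg hm l1 l2 l3 l4 s1 s2
  have s1' := s1
  have s2' := s2
  rw [two_swap] at s1' s2'
  rcases lt_or_gt_of_ne h3 with c1 | c1 <;> rcases lt_or_gt_of_ne h4 with c2 | c2
  · have := H p hp hpp η hη b₁ a₁ b₂ a₂ h1 c1 c2
      (by rw [Nat.gcd_comm b₁, Nat.gcd_comm b₂]; exact hg) (by omega) l2 l4 s1' s2'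
    omega
  · have := H p hp hpp η hη b₁ a₁ a₂ b₂ h1 c1 c2
      (by rw [Nat.gcd_comm b₁]; exact hg) (by omega) l2 l3 s1' s2
    omega
  · have := H p hp hpp η hη a₁ b₁ b₂ a₂ h2 c1 c2
      (by rw [Nat.gcd_comm b₂]; exact hg) (by omega) l1 l4 s1 s2'
    omega
  · have := H p hp hpp η hη a₁ b₁ a₂ b₂ h2 c1 c2 hg (by omega) l1 l3 s1 s2
    omega

lemma two_pigeon {p : ℕ} (hp : 2 ≤ p) (a : Fin 4 → ℤ) : ∃ κ : ℤ, ¬ (p : ℤ) ∣ κ ∧
    ∃ e : Fin 4 → ℤ, ∀ i, (p : ℤ) ∣ κ * a i - e i ∧ (e i).natAbs ^ 4 ≤ 16 * p ^ 3 := by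
  classical
  have hex : ∃ q : ℕ, p ≤ (q + 1) ^ 4 := ⟨p, by
    calc p ≤ p + 1 := by omega
      _ ≤ (p + 1) ^ 4 := Nat.le_self_pow (by norm_num) _⟩
  set Q := Nat.find hex with hQ
  have hQ1 : p ≤ (Q + 1) ^ 4 := Nat.find_spec hex
  have hQ0 : 1 ≤ Q := by
    by_contra h0
    have : Q = 0 := by omega
    rw [this] at hQ1
    omega
  have hQ2 : Q ^ 4 < p := by
    have := Nat.find_min hex (m := Q - 1) (by omega)
    rw [show Q - 1 + 1 = Q by omega] at this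
    omega
  have hp0 : (0 : ℤ) < p := by exact_mod_cast (by omega : 0 < p)
  have hQ0' : (0 : ℤ) < Q := by exact_mod_cast hQ0
  obtain ⟨j, hj, j', hj', hne, heq⟩ := Finset.exists_ne_map_eq_of_card_lt_of_maps_to
    (s := range p) (t := Fintype.piFinset fun _ : Fin 4 => Finset.Ico (0 : ℤ) Q)
    (by simpa using hQ2) (f := fun j i => ((j : ℤ) * a i) % p * Q / p) (by
      intro j _
      rw [Finset.mem_coe, Fintype.mem_piFinset]
      intro i
      rw [Finset.mem_Ico]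
      have h1 := Int.emod_nonneg ((j : ℤ) * a i) hp0.ne'
      have h2 := Int.emod_lt_of_pos ((j : ℤ) * a i) hp0
      exact ⟨Int.ediv_nonneg (by positivity) hp0.le,
        Int.ediv_lt_of_lt_mul hp0 (by nlinarith)⟩)
  rw [mem_range] at hj hj'
  refine ⟨(j : ℤ) - j', ?_, fun i => ((j : ℤ) * a i) % p - ((j' : ℤ) * a i) % p, fun i => ⟨?_, ?_⟩⟩
  · intro hd
    have := Int.eq_zero_of_abs_lt_dvd hd (by rw [abs_lt]; constructor <;> omega)
    omega
  · have h1 := Int.emod_add_mul_ediv ((j : ℤ) * a i) p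
    have h2 := Int.emod_add_mul_ediv ((j' : ℤ) * a i) p
    exact ⟨(j : ℤ) * a i / p - (j' : ℤ) * a i / p, by linear_combination h2 - h1⟩
  · have h0 : ((j : ℤ) * a i) % p * Q / p = ((j' : ℤ) * a i) % p * Q / p := congrFun heq i
    set x := ((j : ℤ) * a i) % p
    set y := ((j' : ℤ) * a i) % p
    have h1 := Int.emod_add_mul_ediv (x * Q) p
    have h2 := Int.emod_add_mul_ediv (y * Q) p
    have h3 := Int.emod_nonneg (x * Q) hp0.ne'
    have h4 := Int.emod_lt_of_pos (x * Q) hp0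
    have h5 := Int.emod_nonneg (y * Q) hp0.ne'
    have h6 := Int.emod_lt_of_pos (y * Q) hp0
    rw [h0] at h1
    have h7 : |(x - y) * Q| < p := by
      rw [abs_lt]
      constructor <;> nlinarith
    have h8 : (x - y).natAbs * Q < p := by
      have : (((x - y).natAbs * Q : ℕ) : ℤ) < p := by
        rw [abs_mul, abs_of_pos hQ0'] at h7
        push_cast
        exact h7
      exact_mod_cast this
    refine Nat.le_of_mul_le_mul_right (c := p) ?_ (by omega)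
    calc (x - y).natAbs ^ 4 * p ≤ (x - y).natAbs ^ 4 * (2 * Q) ^ 4 := by
          gcongr
          exact hQ1.trans (Nat.pow_le_pow_left (by omega) _)
      _ = 16 * ((x - y).natAbs * Q) ^ 4 := by ring
      _ ≤ 16 * p ^ 4 := by gcongr
      _ = 16 * p ^ 3 * p := by ring

lemma two_red {p : ℕ} (hp : p.Prime) (a : Fin 4 → ℤ) (h0 : ¬ (p : ℤ) ∣ a 0) :
    ∃ (μ : ℤ) (f : Fin 4 → ℤ), (∀ i, (p : ℤ) ∣ a i - μ * f i ∧ (f i).natAbs ^ 4 ≤ 16 * p ^ 3) ∧
      Nat.gcd (Nat.gcd (f 0).natAbs (f 1).natAbs) (Nat.gcd (f 2).natAbs (f 3).natAbs) = 1 := by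
  obtain ⟨κ, hκ, e, he⟩ := two_pigeon hp.two_le a
  have hpz : Prime (p : ℤ) := Nat.prime_iff_prime_int.1 hp
  obtain ⟨u, v, huv⟩ : IsCoprime (p : ℤ) κ := (hpz.irreducible.coprime_iff_not_dvd).2 hκ
  have he0 : e 0 ≠ 0 := by
    intro h1
    have h2 := (he 0).1
    rw [h1, sub_zero] at h2
    exact (hpz.dvd_or_dvd h2).elim hκ h0
  set G := Nat.gcd (Nat.gcd (e 0).natAbs (e 1).natAbs) (Nat.gcd (e 2).natAbs (e 3).natAbs) with hG
  have hG0 : 0 < G :=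
    Nat.gcd_pos_of_pos_left _ (Nat.gcd_pos_of_pos_left _ (Int.natAbs_pos.2 he0))
  have hd : ∀ i, (G : ℤ) ∣ e i := by
    intro i
    rw [Int.natCast_dvd]
    fin_cases i
    · exact (Nat.gcd_dvd_left _ _).trans (Nat.gcd_dvd_left _ _)
    · exact (Nat.gcd_dvd_left _ _).trans (Nat.gcd_dvd_right _ _)
    · exact (Nat.gcd_dvd_right _ _).trans (Nat.gcd_dvd_left _ _)
    · exact (Nat.gcd_dvd_right _ _).trans (Nat.gcd_dvd_right _ _)
  choose f hf using hd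
  have hn : ∀ i, (e i).natAbs = G * (f i).natAbs := by
    intro i
    rw [hf i, Int.natAbs_mul, Int.natAbs_natCast]
  refine ⟨v * G, f, fun i => ⟨?_, ?_⟩, ?_⟩
  · obtain ⟨w, hw⟩ := (he i).1
    refine ⟨u * a i + v * w, ?_⟩
    have := hf i
    linear_combination (-a i) * huv + v * hw + v * this
  · refine le_trans (Nat.pow_le_pow_left ?_ _) (he i).2
    rw [hn i]
    exact Nat.le_mul_of_pos_left _ hG0
  · have h1 := hG
    rw [hn 0, hn 1, hn 2, hn 3, Nat.gcd_mul_left, Nat.gcd_mul_left, Nat.gcd_mul_left] at h1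
    refine Nat.eq_of_mul_eq_mul_left hG0 ?_
    rw [mul_one]
    exact h1.symm

lemma two_E {p : ℕ} (hp : 0 < p) {x μ f : ℤ} (h : (p : ℤ) ∣ x - μ * f) :
    E p x = E p μ ^ f := by
  obtain ⟨w, hw⟩ := h
  have hp' : (p : ℂ) ≠ 0 := by exact_mod_cast hp.ne'
  unfold E
  rw [← Complex.exp_int_mul, Complex.exp_eq_exp_iff_exists_int]
  refine ⟨w, ?_⟩
  have : (x : ℂ) = μ * f + p * w := by exact_mod_cast (by linarith : x = μ * f + p * w)
  rw [this]
  field_simp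

lemma two_E_pow {p : ℕ} (hp : 0 < p) (μ : ℤ) : E p μ ^ p = 1 := by
  have hp' : (p : ℂ) ≠ 0 := by exact_mod_cast hp.ne'
  unfold E
  rw [← Complex.exp_nat_mul, Complex.exp_eq_one_iff]
  exact ⟨μ, by field_simp⟩

lemma two_abs (k c : ℤ) (η : ℂ) (f g : ℤ) :
    PV k c (η ^ f) (η ^ g) = PV k c (η ^ f.natAbs) (η ^ g.natAbs) := by
  have e : ∀ m : ℤ, η ^ m + (η ^ m)⁻¹ = η ^ m.natAbs + (η ^ m.natAbs)⁻¹ := by
    intro m
    obtain ⟨n, rfl | rfl⟩ := Int.eq_nat_or_neg m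
    · simp
    · simp [add_comm]
  unfold PV
  linear_combination (c : ℂ) * e f + (c : ℂ) * e g

lemma two_rel {p B : ℕ} (hB : 1 ≤ B) {a b μ f g : ℤ} (h : NoRel p B a b)
    (ha : (p : ℤ) ∣ a - μ * f) (hb : (p : ℤ) ∣ b - μ * g) :
    1 ≤ f.natAbs ∧ 1 ≤ g.natAbs ∧ f.natAbs ≠ g.natAbs ∧ B ≤ max f.natAbs g.natAbs := by
  obtain ⟨w, hw⟩ := ha
  obtain ⟨w', hw'⟩ := hb
  have hB' : (1 : ℤ) ≤ B := by exact_mod_cast hB
  have h1 : f ≠ 0 := by
    rintro rfl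
    have := h 1 0 (by simpa using hB') (by simp) ⟨w, by linear_combination hw⟩
    omega
  have h2 : g ≠ 0 := by
    rintro rfl
    have := h 0 1 (by simp) (by simpa using hB') ⟨w', by linear_combination hw'⟩
    omega
  refine ⟨by omega, by omega, ?_, ?_⟩
  · intro h3
    rcases Int.natAbs_eq_natAbs_iff.1 h3 with rfl | rfl
    · have := h 1 (-1) (by simpa using hB') (by simpa using hB')
        ⟨w - w', by linear_combination hw - hw'⟩
      omega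
    · have := h 1 1 (by simpa using hB') (by simpa using hB')
        ⟨w + w', by linear_combination hw + hw'⟩
      omega
  · by_contra h3
    have := h g (-f) (by rw [abs_le]; omega) (by rw [abs_le]; omega)
      ⟨g * w - f * w', by linear_combination g * hw - f * hw'⟩
    omega

lemma two_sign {p : ℕ} {a a' μ f f' : ℤ} (ha : (p : ℤ) ∣ a - μ * f) (ha' : (p : ℤ) ∣ a' - μ * f')
    (h : f'.natAbs = f.natAbs) : ∃ ε : ℤ, (ε = 1 ∨ ε = -1) ∧ (p : ℤ) ∣ a' - ε * a := by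
  obtain ⟨w, hw⟩ := ha
  obtain ⟨w', hw'⟩ := ha'
  rcases Int.natAbs_eq_natAbs_iff.1 h with rfl | rfl
  · exact ⟨1, Or.inl rfl, w' - w, by linear_combination hw' - hw⟩
  · exact ⟨-1, Or.inr rfl, w' + w, by linear_combination hw' + hw⟩

theorem two (h : SDeg) : STwo := by
  intro k c hA
  obtain ⟨A₀, p₀, H⟩ := two_core' h hA
  refine ⟨max A₀ 1, p₀, ?_⟩
  intro p hp hpp a₁ b₁ a₂ b₂ r1 r2 s1 s2
  have h0 : ¬ (p : ℤ) ∣ a₁ := by
    intro hd
    have := r1 1 0 (by rw [abs_one]; exact_mod_cast le_max_right A₀ 1) (by simp)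
      (by simpa using hd)
    omega
  obtain ⟨μ, f, hf, hg⟩ := two_red hp ![a₁, b₁, a₂, b₂] h0
  have d0 : (p : ℤ) ∣ a₁ - μ * f 0 := (hf 0).1
  have d1 : (p : ℤ) ∣ b₁ - μ * f 1 := (hf 1).1
  have d2 : (p : ℤ) ∣ a₂ - μ * f 2 := (hf 2).1
  have d3 : (p : ℤ) ∣ b₂ - μ * f 3 := (hf 3).1
  obtain ⟨u1, u2, u3, u4⟩ := two_rel (le_max_right A₀ 1) r1 d0 d1
  obtain ⟨-, -, v3, -⟩ := two_rel (le_max_right A₀ 1) r2 d2 d3
  rw [two_E hp.pos d0, two_E hp.pos d1, two_abs] at s1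
  rw [two_E hp.pos d2, two_E hp.pos d3, two_abs] at s2
  rcases H p hp hpp _ (two_E_pow hp.pos μ) _ _ _ _ u1 u2 u3 v3 hg (le_of_max_le_left u4)
    (hf 0).2 (hf 1).2 (hf 2).2 (hf 3).2 s1 s2 with ⟨e1, e2⟩ | ⟨e1, e2⟩
  · obtain ⟨ε, hε, t⟩ := two_sign d0 d2 e1
    obtain ⟨ε', hε', t'⟩ := two_sign d1 d3 e2
    exact ⟨ε, ε', hε, hε', Or.inl ⟨t, t'⟩⟩
  · obtain ⟨ε, hε, t⟩ := two_sign d1 d2 e1
    obtain ⟨ε', hε', t'⟩ := two_sign d0 d3 e2
    exact ⟨ε, ε', hε, hε', Or.inr ⟨t, t'⟩⟩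

end Pool.Agent.MP_c1891a_nt.H91
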